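import Mathlib
import Pool.Agent.X194.FZ.Fuzzy

/-!
# MP_24ecc9_an: dense proximality of the endograph fuzzy extension does not pass to the hyperspace

See `Pool.Agent.X194.FZ.Defs` for the definitions used in the statement. The space is a countable
family of segments times `ℕ`, embedded in `ℝ⁴` (with the maximum metric), and the map raises the
level by one.
-/

namespace Pool.Agent.Results.MP_24ecc9_an.FuzzyNotHyper

open Pool.Agent.X194.FZ

/-- **Disproof of Q1** (the negated form of the problem file). -/
theorem result : ∃ (X : Type) (_ : MetricSpace X) (f : X → X), Continuous f ∧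
    DenseProximalFuzzy f ∧ ¬ DenseProximalHyper f :=
  ⟨Xp, inferInstance, f, continuous_f, denseProximalFuzzy, not_denseProximalHyper⟩

end Pool.Agent.Results.MP_24ecc9_an.FuzzyNotHyper
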